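import Pool.Agent.X297.TR.Main

/-!
# The Tate conjecture over finite fields: abelian varieties and one codimension on one product
with an abelian variety

We consider smooth projective varieties over an algebraic closure of the field with `p` elements;
let `𝒜` be the class of the abelian varieties (any class of varieties with two properties: it is
closed under products, and it satisfies the theorem of Honda and Tate, `HondaTate`: every Weil number
of weight one occurs on `H^1` of a member).

An abelian variety `B` *covers* a variety `Y` if every Frobenius eigenvalue on `H^i(Y)` is, up to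
the passage to powers of both (finite extensions of the finite field), a Frobenius eigenvalue
on `H^i(B)`, for all `i`. The theorem:

* every variety `Y` is covered by an abelian variety `B(Y)`;
* for any choice of the `B(Y)`, and for any class `𝒴` of varieties, all generalised Tate classes on
  all products of members of `𝒴` and abelian varieties (in particular on all powers `Y ^ n`) are
  obtained, by algebraic operations, from classes of algebraic cycles, from the generalised Tate
  classes on abelian varieties, and from the generalised Tate classes of the single codimension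
  `dim B(Y)` on the product `B(Y) × Y`, for `Y` in `𝒴`;
* if the zeta functions of abelian varieties have the orders of poles predicted by Tate (the ranks of
  the groups of cycles modulo numerical equivalence) at all integers, and for each `Y` in `𝒴` the
  zeta function of `B(Y) × Y` has the predicted order at the single integer `s = dim B(Y)`, then the
  zeta functions of all products of members of `𝒴` and abelian varieties have the predicted orders at
  all integers.

So the (strong) Tate conjecture for all smooth projective varieties over finite fields is equivalent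
to the strong Tate conjecture for abelian varieties together with a statement on cycles of the one
codimension `dim B(Y)` on the one variety `B(Y) × Y`, for each variety `Y`; and it suffices that `Y`
runs through any class of varieties.

`W` is a Weil cohomology theory whose coefficient field is algebraically closed and embedded in the
complex numbers (`ℓ`-adic cohomology with coefficients extended to `ℚ̄_ℓ`). The hypotheses `hRH` and
`hInt` are Deligne's theorem for smooth projective varieties.
-/

open CategoryTheory AlgebraicGeometry

universe u v

namespace Pool.Agent.Results.MP_950c68_ag.AbelianPartner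

open Pool.Agent.H914 Pool.Agent.H914.VarClass Pool.Agent.H914.VarClass.Obj
  Pool.Agent.H914.WeilCohomology Pool.Agent.W534 Pool.Agent.X297.TR

theorem result {k : Type u} [Field k] {𝒱 : VarClass k} {ops : CycleOps 𝒱}
    (W : WeilCohomology.{u, v} ops) [IsAlgClosed W.K] (σ : W.K →+* ℂ) (p : ℕ) [Fact p.Prime]
    (Φ : FrobSystem W p) (hRH : ∀ Z, RiemannHyp Φ σ Z) (hInt : ∀ Z, IntegralFrobenius Φ σ Z)
    (𝒜 : Set 𝒱.Obj) (hprod : ∀ A ∈ 𝒜, ∀ A' ∈ 𝒜, A.prod A' ∈ 𝒜) (hHT : HondaTate Φ 𝒜) :
    (∀ Y : 𝒱.Obj, ∃ B ∈ 𝒜, Covers Φ B Y) ∧
    ∀ (𝒴 : Set 𝒱.Obj) (B : 𝒱.Obj → 𝒱.Obj), (∀ Y ∈ 𝒴, B Y ∈ 𝒜 ∧ Covers Φ (B Y) Y) →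
      (∀ Z, IsProductOf (𝒜 ∪ 𝒴) Z → ∀ s j, 0 < s → ∀ c ∈ genTate Φ Z s j,
        Generated W (sources Φ 𝒜 𝒴 B) Z c) ∧
      ((∀ A ∈ 𝒜, ∀ j ≤ A.dim, PoleFormula Φ σ A j) →
        (∀ Y ∈ 𝒴, PoleFormula Φ σ ((B Y).prod Y) (B Y).dim) →
        ∀ Z, IsProductOf (𝒜 ∪ 𝒴) Z → ∀ j ≤ Z.dim, PoleFormula Φ σ Z j) := by
  have hp : p.Prime := Fact.out
  refine ⟨fun Y => ?_, fun 𝒴 B hB => ⟨fun Z hZ s j hs c hc => ?_, fun h1 h2 Z hZ => ?_⟩⟩
  · obtain ⟨B, hB, -, h⟩ := exists_covers hprod hHT Y (hRH Y) (hInt Y)
    exact ⟨B, hB, h⟩
  · exact generated hprod hHT hB hZ hs hc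
  · exact poles hp.one_lt hRH hprod hHT hB h1 h2 hZ

end Pool.Agent.Results.MP_950c68_ag.AbelianPartner
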