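import Pool.Agent.H313.CC.Loc

/-!
# The Tate conjecture for families over the towers of cyclic coverings of the base

Let `k` be the field with `q` elements, `Z` a smooth projective variety of dimension `m` over `k`,
geometrically connected, the subset of projective space of dimension `M` where the forms `G i` vanish.
Let `π : V → Z` be any smooth projective morphism, for instance the projection of a product `Y × Z`.
Let `ℓ` be a prime, `n` prime to `ℓ`, `N = n ℓ ^ a` with `a > 0` a divisor of `q - 1`, and `F` a form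
whose degree is divisible by `N`, such that the subset `F = 0` of `Z` is a smooth divisor `B` (not
empty). For `v ≠ 0` in `k` let `X_v : w ^ N = v ^ n F` be the cyclic covering of `Z` of degree `N`
branched along `B`, and `X : w ^ n = F`, which is covered by all the `X_v`. The varieties
`V_v = V ×_Z X_v` and `V' = V ×_Z X` are smooth and projective, of the dimension of `V`. The `X_v` for
different classes of `v` modulo `ℓ ^ a`-th powers become isomorphic, as coverings of `X`, only over
extensions of `k`.

Let `U` be the complement of `B` in `Z`, and for a nontrivial character `ψ` of `k` whose order divides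
`N` let `ℒ_ψ` be the Kummer sheaf of `ψ` for `F` on `U`. As `U` is affine and `ℒ_ψ` is (tamely) ramified
along all components of `B`, the cohomology with compact support of `U` with coefficients in `R ^ i π_* ⊗ ℒ_ψ` is zero
except in degree `m`, and this group is the `ψ`-part of `H ^ (i + m) (V_v)`, up to the twist by the
value of `ψ` at `v ^ n`. For a closed point `z` of `Z` let
`fibre c z = det (1 - T Frob_z)` on the cohomology of degree `2 c - m` of the fibre of `π` at `z`. The
product `charProduct` for `fibre c` and `ψ` is the inverse of the `L`-function of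
`R ^ (2 c - m) π_* ⊗ ℒ_ψ` (Grothendieck); so the characteristic polynomial `det (1 - T Frob)` on the
cohomology of degree `m` is this product if `m` is even, and its inverse if `m` is odd (`IsDet`). If `χ`
is a character of `k` of order `N` then `IsCoverPolynomial` holds for
`P_v = det (1 - T Frob)` on `H ^ (2 c) (V_v) / H ^ (2 c) (V)`, and for the covering of degree `n` and
the polynomial `P = det (1 - T Frob)` on `H ^ (2 c) (V') / H ^ (2 c) (V)`. Finally `L₁ / L₂` is the
`L`-function of `R ^ (2 c - m) π_*` on `U` if `m` is odd, and its inverse if `m` is even.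
-/

set_option autoImplicit false
set_option linter.all false
set_option maxHeartbeats 4000000

open Polynomial NumberField

namespace Pool.Agent.Results.MP_950c68_ag.CyclicBaseChange

open Pool.Agent.TH639.SN (SpacePt normValue chart eulerProduct finite_le deg_pos chart_C_mul
  normValue_C_mul)

section defs

variable {k : Type} [Field k] {M s : ℕ}

/-- The closed points of the subset `Z` of projective space of dimension `M` over `k` where the forms
`G i` vanish. The coordinate of index `index` is one, the following coordinates are zero, and the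
preceding ones are the coordinates of the closed point `point` of affine space. -/
structure Pt (G : Fin s → MvPolynomial (Fin (M + 1)) k) : Type where
  index : Fin (M + 1)
  point : SpacePt index k
  vanish : ∀ i, normValue index k (chart index (G i)) point = 0

variable {G : Fin s → MvPolynomial (Fin (M + 1)) k}

/-- The degree of a closed point. -/
noncomputable def Pt.degree (z : Pt G) : ℕ := Pool.Agent.TH639.SN.deg z.index k z.point

/-- The norm to `k` of the value of the form `F` at a closed point. -/
noncomputable def Pt.value (z : Pt G) (F : MvPolynomial (Fin (M + 1)) k) : k :=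
  normValue z.index k (chart z.index F) z.point

/-- The power series `P(a T ^ d)`. -/
noncomputable def factor {A : Type} [CommRing A] (P : ℤ[X]) (a : A) (d : ℕ) : PowerSeries A :=
  (((P.map (algebraMap ℤ A)).comp (C a * X ^ d) : A[X]) : PowerSeries A)

variable (fibre : Pt G → ℤ[X]) (F : MvPolynomial (Fin (M + 1)) k)

/-- The product over the closed points `z` with `F(z) ≠ 0` of the `P_z(T ^ (deg z))`, `P_z = fibre z`. -/
noncomputable def openProduct : PowerSeries ℤ :=
  eulerProduct (fun z : {z : Pt G // z.value F ≠ 0} => z.1.degree)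
    (fun z => factor (fibre z.1) 1 z.1.degree)

/-- The product over the closed points `z` of `Z` of the factors `P_z(ψ(N F(z)) T ^ (deg z))`, where
`P_z = fibre z`, `N F(z)` is the norm to `k` of the value of `F` at `z`, and `ψ(0) = 0`. -/
noncomputable def charProduct {A : Type} [CommRing A] (ψ : MulChar k A) : PowerSeries A :=
  eulerProduct (fun z : Pt G => z.degree) (fun z => factor (fibre z) (ψ (z.value F)) z.degree)

/-- `Q = f` if `m` is even, and `Q = 1 / f` if `m` is odd. If `1 / f` is the `L`-function of a sheaf whose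
only nonzero cohomology group with compact support is that of degree `m`, then
`Q = det (1 - T Frob)` for this group. -/
def IsDet {A : Type} [CommRing A] (m : ℕ) (f Q : PowerSeries A) : Prop :=
  if Even m then f = Q else f * Q = 1

/-- The product of the `P_z(T ^ (deg z))` over the closed points with `F(z) ≠ 0` is `L₁ / L₂` if `m` is
even, and `L₂ / L₁` if `m` is odd. -/
structure IsQuotient (m : ℕ) (L₁ L₂ : ℤ[X]) : Prop where
  constant₁ : L₁.coeff 0 = 1
  constant₂ : L₂.coeff 0 = 1
  quotient : if Even m then openProduct fibre F * (L₂ : PowerSeries ℤ) = (L₁ : PowerSeries ℤ)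
    else openProduct fibre F * (L₁ : PowerSeries ℤ) = (L₂ : PowerSeries ℤ)

/-- `P` (its inverse, if `m` is odd) is the product of the products `charProduct` for the characters
`χ ^ j`, `0 < j < N`. -/
def IsCoverPolynomial {A : Type} [CommRing A] (m : ℕ) (χ : MulChar k A) (N : ℕ) (P : ℤ[X]) : Prop :=
  IsDet m (∏ j ∈ Finset.Ico 1 N, charProduct fibre F (χ ^ j))
    (PowerSeries.map (algebraMap ℤ A) (P : PowerSeries ℤ))

/-- The multiplicity of the zero one of the reduction of `P` modulo `ℓ`. -/
noncomputable def multOne (ℓ : ℕ) (P : ℤ[X]) : ℕ :=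
  (P.map (Int.castRingHom (ZMod ℓ))).rootMultiplicity 1

/-- The order of the zero of `P` at `T = 1 / q ^ c`, where `q` is the number of elements of `k`. -/
noncomputable def orderAt (k : Type) (c : ℕ) (P : ℤ[X]) : ℕ :=
  (P.map (Int.castRingHom ℚ)).rootMultiplicity ((Nat.card k : ℚ) ^ c)⁻¹

theorem finite_points [Finite k] (N : ℕ) : {z : Pt G | z.degree ≤ N}.Finite := by
  have h1 : (⋃ j : Fin (M + 1), (fun z : SpacePt j k => (⟨j, z⟩ : Σ j : Fin (M + 1), SpacePt j k)) ''
      {z : SpacePt j k | Pool.Agent.TH639.SN.deg j k z ≤ N}).Finite :=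
    Set.finite_iUnion fun j => (finite_le j k N).image _
  refine Set.Finite.of_finite_image
    (f := fun z : Pt G => (⟨z.index, z.point⟩ : Σ j : Fin (M + 1), SpacePt j k))
    (h1.subset ?_) ?_
  · rintro _ ⟨z, hz, rfl⟩
    simp only [Set.mem_iUnion]
    exact ⟨z.index, z.point, hz, rfl⟩
  · intro z _ z' _ h
    cases z
    cases z'
    simp only [Sigma.mk.injEq] at h
    obtain ⟨h1, h2⟩ := h
    subst h1
    rw [heq_iff_eq] at h2
    subst h2
    rfl

theorem degree_pos (z : Pt G) : 0 < z.degree := deg_pos z.index k z.point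

theorem value_C_mul (z : Pt G) (e : k) :
    z.value (MvPolynomial.C e * F) = e ^ z.degree * z.value F := by
  show normValue z.index k (chart z.index (MvPolynomial.C e * F)) z.point = _
  rw [chart_C_mul, normValue_C_mul]
  rfl

theorem isDet_iff {A : Type} [CommRing A] {m : ℕ} {f Q : PowerSeries A}
    (hf : PowerSeries.constantCoeff f = 1) :
    IsDet m f Q ↔ Pool.Agent.H313.CC.dE m f = Q := by
  unfold IsDet Pool.Agent.H313.CC.dE
  split_ifs
  · rfl
  · constructor
    · exact Pool.Agent.H313.CC.inv_unique hf
    · intro h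
      rw [← h]
      exact PowerSeries.mul_invOfUnit f 1 (by rw [hf]; rfl)

/-- One degree of the cohomology. -/
theorem one_degree (ℓ a n m : ℕ) (hℓ : ℓ.Prime) (ha : a ≠ 0) (hn0 : 0 < n) (hn : n.Coprime ℓ)
    [Finite k] (K : Type) [Field K] [NumberField K] [IsGalois ℚ K]
    (χ : MulChar k (𝓞 K)) (hχ : orderOf χ = n * ℓ ^ a)
    (hfib : ∀ z, (fibre z).coeff 0 = 1)
    (L₁ L₂ P : ℤ[X]) (hL : IsQuotient fibre F m L₁ L₂)
    (hP : IsCoverPolynomial fibre F m (χ ^ ℓ ^ a) n P)
    (hpoly : ∀ j ∈ Finset.Ico 1 (n * ℓ ^ a), ∃ Q : (𝓞 K)[X],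
      IsDet m (charProduct fibre F (χ ^ j)) (Q : PowerSeries (𝓞 K))) (c : ℕ) :
    ∃ T : Finset kˣ, ℓ ^ a * T.card ≤ (Nat.card k - 1) *
        ((∑ i ∈ Finset.range a, ℓ ^ i) * (multOne ℓ L₁ - multOne ℓ L₂ + multOne ℓ P)) ∧
      ∀ v ∉ T, ∀ Pv : ℤ[X],
        IsCoverPolynomial fibre (MvPolynomial.C ((v : k) ^ n) * F) m χ (n * ℓ ^ a) Pv →
          orderAt k c Pv = orderAt k c P := by
  have hfin : ∀ N, {z : Pt G | z.degree ≤ N}.Finite := finite_points
  have hpos : ∀ z : Pt G, 0 < z.degree := degree_pos
  have hunit : ∀ (F' : MvPolynomial (Fin (M + 1)) k) (ψ : MulChar k (𝓞 K)),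
      PowerSeries.constantCoeff (charProduct fibre F' ψ) = 1 := fun F' ψ =>
    Pool.Agent.H313.CC.one_of_pos (d := fun z : Pt G => z.degree) hfin hpos _
  have hunits : ∀ (F' : MvPolynomial (Fin (M + 1)) k) (ψ : MulChar k (𝓞 K)) (N : ℕ),
      PowerSeries.constantCoeff (∏ j ∈ Finset.Ico 1 N, charProduct fibre F' (ψ ^ j)) = 1 := by
    intro F' ψ N
    rw [map_prod]
    exact Finset.prod_eq_one fun j _ => hunit F' _
  have hz : PowerSeries.constantCoeff (openProduct fibre F) = 1 :=
    Pool.Agent.H313.CC.one_of_pos (ι := {z : Pt G // z.value F ≠ 0}) (d := fun z => z.1.degree)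
      (fun N => (hfin N).preimage (Subtype.val_injective.injOn)) (fun z => hpos z.1) _
  have hL' : Pool.Agent.H313.CC.dE m (Pool.Agent.H313.CC.zP (fun z : Pt G => z.degree) fibre
      (fun z => z.value F)) * (L₂ : PowerSeries ℤ) = (L₁ : PowerSeries ℤ) := by
    have h1 := hL.quotient
    show (if Even m then openProduct fibre F else
      PowerSeries.invOfUnit (openProduct fibre F) 1) * (L₂ : PowerSeries ℤ) = _
    split_ifs at h1 ⊢
    · exact h1
    · have h2 : openProduct fibre F * PowerSeries.invOfUnit (openProduct fibre F) 1 = 1 :=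
        PowerSeries.mul_invOfUnit _ 1 (by rw [hz]; rfl)
      rw [← h1]
      calc PowerSeries.invOfUnit (openProduct fibre F) 1 *
            (openProduct fibre F * (L₁ : PowerSeries ℤ))
          = (openProduct fibre F * PowerSeries.invOfUnit (openProduct fibre F) 1) * L₁ := by ring
        _ = L₁ := by rw [h2, one_mul]
  have hP' : Pool.Agent.H313.CC.dE m (∏ i ∈ Finset.Ico 1 n, Pool.Agent.H313.CC.cP
      (fun z : Pt G => z.degree) fibre (fun z => z.value F) (χ ^ (i * ℓ ^ a))) =
      PowerSeries.map (algebraMap ℤ (𝓞 K)) (P : PowerSeries ℤ) := by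
    rw [← (isDet_iff (hunits F (χ ^ ℓ ^ a) n)).1 hP]
    congr 1
    refine Finset.prod_congr rfl fun i _ => ?_
    rw [← pow_mul, mul_comm]
    rfl
  obtain ⟨T, hT, hTv⟩ := Pool.Agent.H313.CC.tower_loc hℓ ha hn0 hn K hχ m
    (d := fun z : Pt G => z.degree) (Pl := fibre) (nv := fun z => z.value F) hfin hpos hfib
    hL.constant₂ hL' hP'
    (fun j hj => by
      obtain ⟨Q, hQ⟩ := hpoly j hj
      exact ⟨Q, (isDet_iff (hunit F _)).1 hQ⟩) c
  exact ⟨T, hT, fun v hv Pv hPv =>
    hTv v hv (fun z => z.value (MvPolynomial.C ((v : k) ^ n) * F))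
      (fun z => value_C_mul F z _) Pv ((isDet_iff (hunits _ χ _)).1 hPv)⟩

end defs

/-- **The Tate conjecture for families over the towers of cyclic coverings of the base.**

With the notation above let `cs` be a finite set of codimensions `c`, for instance all
`c ≤ dim V`. The multiplicities modulo `ℓ`

`multOne ℓ L₁ - multOne ℓ L₂ + multOne ℓ P`

add up to at most `n h b`, where `h = |χ(U)|` is the absolute value of the Euler characteristic of `U`
and `b` is the sum of the Betti numbers of the fibres of `π` in the degrees of the same parity as `m`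
(the first difference is the multiplicity for the cohomology of degree `m` of
`R ^ (2 c - m) π_* ⊗ ℒ_ψ`, where `ψ` is a nontrivial character of `ℓ`-power order).

Theorem: there is a set of at most `(q - 1) (ℓ ^ a - 1) / ((ℓ - 1) ℓ ^ a)` times the sum of these
multiplicities exceptional `v`; for all the other `v` in `k ^ *` and for all `c` the polynomials `P_v`
and `P` have the same order of vanishing at `1 / q ^ c`.

Consequence. For these `v` and all `c` in `cs` the space `E ^ c (V_v)` is the inverse image of
`E ^ c (V')`, so that `E ^ c (V') = A ^ c (V')` implies `E ^ c (V_v) = A ^ c (V_v)`. For all `a` the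
exceptional `v` are at most the proportion `n h b / (ℓ - 1)` of all `v`. For `n = 1` we have `V' = V`:
if the Tate conjecture holds for `V` it holds for all the cyclic coverings `V_v` of `ℓ`-power degree of
`V` along the given union of fibres except for a proportion of at most `h b / (ℓ - 1)` of the `v`.

The fibres of `π` need not be isomorphic over an algebraic closure, and nothing is assumed about the
monodromy. For instance `π` may be an abelian scheme or a Kodaira fibration over a curve `Z`, and
`V_v` its base change to the curves `X_v`. -/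
theorem result (ℓ a n m : ℕ) (hℓ : ℓ.Prime) (ha : a ≠ 0) (hn0 : 0 < n) (hn : n.Coprime ℓ)
    (k : Type) [Field k] [Finite k] (K : Type) [Field K] [NumberField K] [IsGalois ℚ K]
    (χ : MulChar k (𝓞 K)) (hχ : orderOf χ = n * ℓ ^ a) (M s : ℕ)
    (G : Fin s → MvPolynomial (Fin (M + 1)) k) (F : MvPolynomial (Fin (M + 1)) k)
    (cs : Finset ℕ) (fibre : ℕ → Pt G → ℤ[X]) (hfibre : ∀ c z, (fibre c z).coeff 0 = 1)
    (L₁ L₂ P : ℕ → ℤ[X]) (hL : ∀ c ∈ cs, IsQuotient (fibre c) F m (L₁ c) (L₂ c))
    (hP : ∀ c ∈ cs, IsCoverPolynomial (fibre c) F m (χ ^ ℓ ^ a) n (P c))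
    (hpoly : ∀ c ∈ cs, ∀ j ∈ Finset.Ico 1 (n * ℓ ^ a), ∃ Q : (𝓞 K)[X],
      IsDet m (charProduct (fibre c) F (χ ^ j)) (Q : PowerSeries (𝓞 K))) :
    ∃ T : Finset kˣ, ℓ ^ a * T.card ≤ (Nat.card k - 1) * ((∑ i ∈ Finset.range a, ℓ ^ i) *
        ∑ c ∈ cs, (multOne ℓ (L₁ c) - multOne ℓ (L₂ c) + multOne ℓ (P c))) ∧
      ∀ v ∉ T, ∀ c ∈ cs, ∀ Pv : ℤ[X],
        IsCoverPolynomial (fibre c) (MvPolynomial.C ((v : k) ^ n) * F) m χ (n * ℓ ^ a) Pv →
          orderAt k c Pv = orderAt k c (P c) := by
  classical
  have h1 : ∀ c : ℕ, ∃ T : Finset kˣ, c ∈ cs →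
      ℓ ^ a * T.card ≤ (Nat.card k - 1) * ((∑ i ∈ Finset.range a, ℓ ^ i) *
        (multOne ℓ (L₁ c) - multOne ℓ (L₂ c) + multOne ℓ (P c))) ∧
      ∀ v ∉ T, ∀ Pv : ℤ[X],
        IsCoverPolynomial (fibre c) (MvPolynomial.C ((v : k) ^ n) * F) m χ (n * ℓ ^ a) Pv →
          orderAt k c Pv = orderAt k c (P c) := by
    intro c
    by_cases hc : c ∈ cs
    · obtain ⟨T, hT⟩ := one_degree (fibre c) F ℓ a n m hℓ ha hn0 hn K χ hχ (hfibre c) (L₁ c) (L₂ c)
        (P c) (hL c hc) (hP c hc) (hpoly c hc) c
      exact ⟨T, fun _ => hT⟩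
    · exact ⟨∅, fun h => absurd h hc⟩
  choose T hT using h1
  refine ⟨cs.biUnion T, ?_, ?_⟩
  · calc ℓ ^ a * (cs.biUnion T).card ≤ ℓ ^ a * ∑ c ∈ cs, (T c).card :=
          Nat.mul_le_mul_left _ Finset.card_biUnion_le
      _ = ∑ c ∈ cs, ℓ ^ a * (T c).card := Finset.mul_sum _ _ _
      _ ≤ ∑ c ∈ cs, (Nat.card k - 1) * ((∑ i ∈ Finset.range a, ℓ ^ i) *
            (multOne ℓ (L₁ c) - multOne ℓ (L₂ c) + multOne ℓ (P c))) :=
          Finset.sum_le_sum fun c hc => (hT c hc).1
      _ = _ := by rw [Finset.mul_sum, Finset.mul_sum]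
  · intro v hv c hc Pv hPv
    refine (hT c hc).2 v (fun h => hv ?_) Pv hPv
    exact Finset.mem_biUnion.2 ⟨c, hc, h⟩

end Pool.Agent.Results.MP_950c68_ag.CyclicBaseChange
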