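import Pool.Agent.X305.GP.Main

/-!
# A gap theorem for the Tate conjecture on `X × X`

Let `X` be a smooth projective variety of dimension `n` over a finite field with `q` elements. The
Tate conjecture for `X × X` in codimension `n`, together with the semisimplicity of the Frobenius
endomorphism on `H (X)`, says that the rank `r` of the intersection pairing on the cycles of
codimension `n` on `X × X` is equal to the number `M = ∑ m_a ^ 2`, where `m_a` is the multiplicity
of the Frobenius eigenvalue `a` on `H (X)` (by the Riemann hypothesis `M` is the multiplicity of the
eigenvalue `q ^ n` on `H^(2 n) (X × X)`). In general `r ≤ M`. The theorem says that the number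
`M - r` of missing classes is zero if it is small: it is enough that `M - r < 2 (m_a - 1)`, or
`M - r < 4 (m_a - 1)` and `a ^ 2 ≠ q ^ n`, for all `a` with `m_a ≥ 2`; in particular it is never
equal to `1`. So the Tate conjecture for `X × X` in codimension `n`, the semisimplicity of
Frobenius, the Tate conjecture for `X` in all codimensions, and the equality of numerical and
homological equivalence for the cycles on `X × X` follow if all but a few classes are known. No
conjecture is used.

The proof: a nonzero proper subspace of the generalised eigenspace for `a` which is stable under the
correspondences would make the rank of the trace form smaller by at least `2 (m_a - 1)`, and its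
orthogonal space would do the same for `q ^ n / a`. Therefore the correspondences act irreducibly on
each generalised eigenspace, and, since Frobenius is itself a correspondence, the density theorem
shows that they span the commutant of Frobenius.
-/

set_option autoImplicit false

open CategoryTheory AlgebraicGeometry

universe u v

open Pool.Agent.H914 Pool.Agent.H914.VarClass Pool.Agent.H914.VarClass.Obj
  Pool.Agent.X305.FM Pool.Agent.X305.GP Pool.Agent.X305.TQ

/-- **The gap theorem.** Let `W` be a Weil cohomology with algebraically closed coefficients, `X` a
smooth proper variety over the algebraically closed field `k`, `f` an endomorphism of `X` which acts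
like the Frobenius endomorphism relative to the field with `q` elements on the class of the divisor
`D` and on the trace, and let the degree of `D ^ dim X` be different from zero. Let the rank of the
intersection pairing on the Frobenius cycles of codimension `dim X` on `X × X` be at least `r`. Then
`r ≤ M`, and, if there are few missing classes (`FewMissing`), in particular if `M ≤ r + 1`, then
`f^*` is semisimple on `H (X)`, the Tate conjecture holds for `X × X` in codimension `dim X` and for
`X` in all codimensions, the rank is equal to `M`, and numerical and homological equivalence agree
on the Frobenius cycles of codimension `dim X` on `X × X`. -/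
theorem Pool.Agent.Results.MP_950c68_ag.GapTheorem.result {k : Type u} [Field k]
    {𝒱 : VarClass k} {ops : CycleOps 𝒱} {W : WeilCohomology.{u, v} ops} [IsAlgClosed W.K]
    {X : 𝒱.Obj} {D : X.Cycles} {f : X ⟶ X} {q r : ℕ} (hq : 0 < q)
    (hf : IsFrobeniusFor W X D f q) (hD : X.IsCyc 1 D)
    (hdeg : X.V.degCycle (divPow ops D X.dim X.V.fundCycle) ≠ 0)
    (hr : InterRankAtLeast W (X.prod X) (square X f) q X.dim r) :
    r ≤ frobSquares W X f ∧ (frobSquares W X f ≤ r + 1 → FewMissing W X f q r) ∧
      (FewMissing W X f q r →
        Module.End.IsSemisimple (pull W X f) ∧
        TateFor W (X.prod X) (square X f) q X.dim ∧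
        (∀ j ≤ X.dim, TateFor W X f q j) ∧
        InterRankAtLeast W (X.prod X) (square X f) q X.dim (frobSquares W X f) ∧
        NumEqHomFor W (X.prod X) (square X f) q X.dim) := by
  refine ⟨rank_le hq hf.tr_map hr, fewMissing_one, fun h => ?_⟩
  have hs : ∀ a, SimpleAt (frobOps W X f q) (pull W X f) a := fun a =>
    simpleAt_of_small (isOps hq hf.tr_map) (superRank hr) (h a)
  exact ⟨semisimple_of_simple hq hf.tr_map hs, tate_square hq hf.tr_map hs,
    fun j hj => tate_of_simple hq hf hD (pow_ne hdeg hD hj) (hs _),
    fullRank_square hq hf.tr_map hs, numEqHom_square hq hf.tr_map hs⟩
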